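import Mathlib

/-!
# A `C₄`-type configuration-free lemma from Szemerédi's regularity lemma

`C` is a finite family with four labels `x, y, p, q` in an `n`-element set.
If `(x,y)`, `(x,p)`, `(y,q)` are injective on `C` and there are no `a b c d ∈ C` with
`a ≠ c`, `d ≠ c`, `x a = x c`, `p a = p b`, `q b = q d`, `y d = y c`, then `|C| = o(n²)`.
-/

open Finset Fintype SzemerediRegularity

namespace Pool.Agent.V11247.Nrd

theorem aux_div {n k : ℕ} (hk : 0 < k) (hn : k ≤ n) : n < 2 * k * (n / k) := by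
  have h1 : 1 ≤ n / k := (Nat.one_le_div_iff hk).2 hn
  have h2 : n % k < k := Nat.mod_lt n hk
  have h3 : k * (n / k) + n % k = n := Nat.div_add_mod n k
  nlinarith

theorem card_bound {α : Type} [DecidableEq α] [Fintype α] {s : Finset α}
    {P : Finpartition (univ : Finset α)} {b : ℕ}
    (hP₁ : P.IsEquipartition) (hP₃ : #P.parts ≤ b)
    (hX : s ∈ P.parts) : card α / (2 * b : ℝ) ≤ #s := by
  cases isEmpty_or_nonempty α
  · simp [Fintype.card_eq_zero]
  have := Finset.Nonempty.card_pos ⟨_, hX⟩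
  have hb : 0 < b := lt_of_lt_of_le this hP₃
  calc
    _ ≤ card α / (2 * #P.parts : ℝ) := by gcongr
    _ ≤ ↑(card α / #P.parts) :=
      (div_le_iff₀' (by positivity)).2 <| mod_cast (aux_div ‹_› P.card_parts_le_card).le
    _ ≤ (#s : ℝ) := mod_cast hP₁.average_le_card_part hX

theorem light_card {α V K : Type} [DecidableEq α] [Fintype α] [DecidableEq V] [Fintype V]
    [DecidableEq K] (P : Finpartition (univ : Finset α)) (C : Finset K) (f : K → α) (p : K → V)
    (η : ℝ) (hη : 0 ≤ η) :
    (#(C.filter fun c => (#(C.filter fun b => p b = p c ∧ f b ∈ P.part (f c)) : ℝ)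
      < η * #(P.part (f c))) : ℝ) ≤ η * card V * card α := by
  classical
  set R := C.filter fun c => (#(C.filter fun b => p b = p c ∧ f b ∈ P.part (f c)) : ℝ)
      < η * #(P.part (f c)) with hR
  have h1 : R ⊆ (univ ×ˢ P.parts).biUnion
      (fun vU : V × Finset α => R.filter fun c => p c = vU.1 ∧ f c ∈ vU.2) := by
    intro c hc
    simp only [mem_biUnion, mem_product, mem_univ, true_and, mem_filter, Prod.exists]
    exact ⟨p c, P.part (f c), P.part_mem.2 (mem_univ _), hc, rfl, P.mem_part (mem_univ _)⟩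
  have h2 : ∀ vU ∈ (univ ×ˢ P.parts : Finset (V × Finset α)),
      (#(R.filter fun c => p c = vU.1 ∧ f c ∈ vU.2) : ℝ) ≤ η * #vU.2 := by
    rintro ⟨v, U⟩ hvU
    simp only [mem_product, mem_univ, true_and] at hvU
    rcases (R.filter fun c => p c = v ∧ f c ∈ U).eq_empty_or_nonempty with h | ⟨c, hc⟩
    · rw [h, Finset.card_empty, Nat.cast_zero]
      exact mul_nonneg hη (Nat.cast_nonneg _)
    · simp only [mem_filter] at hc
      obtain ⟨hcR, hcv, hcU⟩ := hc
      have hpart : P.part (f c) = U := P.part_eq_of_mem hvU hcU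
      have hlt := (mem_filter.1 hcR).2
      rw [hpart, hcv] at hlt
      refine le_trans ?_ hlt.le
      norm_cast
      apply card_le_card
      intro b hb
      simp only [mem_filter] at hb ⊢
      exact ⟨(mem_filter.1 hb.1).1, hb.2⟩
  calc (#R : ℝ) ≤ #((univ ×ˢ P.parts).biUnion
      (fun vU : V × Finset α => R.filter fun c => p c = vU.1 ∧ f c ∈ vU.2)) := by
        exact_mod_cast card_le_card h1
    _ ≤ ∑ vU ∈ (univ ×ˢ P.parts : Finset (V × Finset α)),
        (#(R.filter fun c => p c = vU.1 ∧ f c ∈ vU.2) : ℝ) := by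
        exact_mod_cast card_biUnion_le
    _ ≤ ∑ vU ∈ (univ ×ˢ P.parts : Finset (V × Finset α)), η * #vU.2 := sum_le_sum h2
    _ = η * card V * card α := by
        rw [sum_product]
        simp only [sum_const, ← mul_sum]
        rw [← Nat.cast_sum, P.sum_card_parts]
        simp only [nsmul_eq_mul, card_univ]
        ring

variable {V K : Type}

/-- the bipartite graph with edges `(x c, y c)`. -/
def gr (C : Finset K) (x y : K → V) : SimpleGraph (V ⊕ V) where
  Adj u v := (∃ c ∈ C, u = Sum.inl (x c) ∧ v = Sum.inr (y c)) ∨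
    (∃ c ∈ C, v = Sum.inl (x c) ∧ u = Sum.inr (y c))
  symm := ⟨fun u v h => by rcases h with h | h; exacts [Or.inr h, Or.inl h]⟩
  loopless := ⟨fun u h => by
    rcases h with ⟨c, _, h1, h2⟩ | ⟨c, _, h1, h2⟩ <;> · rw [h1] at h2; cases h2⟩

theorem few {ε : ℝ} (hε : 0 < ε) : ∃ N₀ : ℕ, ∀ (V K : Type) [Fintype V] (C : Finset K)
    (x y p q : K → V),
    (∀ c ∈ C, ∀ c' ∈ C, x c = x c' → y c = y c' → c = c') →
    (∀ c ∈ C, ∀ c' ∈ C, x c = x c' → p c = p c' → c = c') →
    (∀ c ∈ C, ∀ c' ∈ C, y c = y c' → q c = q c' → c = c') →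
    (∀ a ∈ C, ∀ b ∈ C, ∀ c ∈ C, ∀ d ∈ C, a ≠ c → d ≠ c → x a = x c → p a = p b → q b = q d →
      y d = y c → False) →
    N₀ ≤ card V → (#C : ℝ) ≤ ε * (card V : ℝ) ^ 2 := by
  classical
  set e : ℝ := ε / 20 with he
  have he0 : 0 < e := by positivity
  set l : ℕ := ⌈4 / e⌉₊ with hl
  set B : ℕ := bound (e / 8) l with hB
  have hBpos : 0 < B := bound_pos _ _
  clear_value B l e
  set M : ℝ := 2 * (B : ℝ) ^ 2 / (e / 8) ^ 3 with hM
  refine ⟨max l (⌊M⌋₊ + 1), ?_⟩
  intro V K _ C x y p q hxy hxp hyq hforb hn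
  by_contra hbig
  push Not at hbig
  have hnl : l ≤ card V := (le_max_left _ _).trans hn
  have hnM : M < card V := by
    have h1 : ⌊M⌋₊ + 1 ≤ card V := (le_max_right _ _).trans hn
    exact (Nat.floor_lt' (by
      have : 1 ≤ card V := by omega
      omega)).1 (by omega)
  have hn0 : 0 < card V := by
    have : ⌊M⌋₊ + 1 ≤ card V := (le_max_right _ _).trans hn
    omega
  have : Nonempty V := Fintype.card_pos_iff.1 hn0
  have hcardα : card (V ⊕ V) = 2 * card V := by simp [two_mul]
  set G := gr C x y with hG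
  obtain ⟨P, hP₁, hP₂, hP₃, hP₄⟩ := szemeredi_regularity G (by positivity : 0 < e / 8)
    (show l ≤ card (V ⊕ V) by rw [hcardα]; omega)
  rw [← hB] at hP₃
  have hparts : 4 / e ≤ #P.parts := (Nat.le_ceil _).trans (Nat.cast_le.2 (hl ▸ hP₂))
  have k := SimpleGraph.regularityReduced_edges_card_aux he0 hP₁ hP₄ hparts
  set G' := G.regularityReduced P (e / 8) (e / 4) with hG'
  -- three kinds of bad clauses
  set R1 := C.filter fun c => ¬ G'.Adj (Sum.inl (x c)) (Sum.inr (y c)) with hR1
  set R2 := C.filter fun c => (#(C.filter fun b => p b = p c ∧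
      (Sum.inl (x b) : V ⊕ V) ∈ P.part (Sum.inl (x c))) : ℝ)
      < (e / 8) * #(P.part (Sum.inl (x c))) with hR2
  set R3 := C.filter fun c => (#(C.filter fun b => q b = q c ∧
      (Sum.inr (y b) : V ⊕ V) ∈ P.part (Sum.inr (y c))) : ℝ)
      < (e / 8) * #(P.part (Sum.inr (y c))) with hR3
  have hGadj : ∀ c ∈ C, G.Adj (Sum.inl (x c)) (Sum.inr (y c)) :=
    fun c hc => Or.inl ⟨c, hc, rfl, rfl⟩
  have hR1card : (#R1 : ℝ) < e * (card (V ⊕ V) ^ 2 : ℕ) := by
    have h1 : #R1 ≤ #(G.edgeFinset \ G'.edgeFinset) := by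
      refine card_le_card_of_injOn (fun c => s(Sum.inl (x c), Sum.inr (y c))) ?_ ?_
      · intro c hc
        simp only [hR1, coe_filter, Set.mem_ofPred_eq] at hc
        simp only [coe_sdiff, Set.mem_sdiff, mem_coe, SimpleGraph.mem_edgeFinset,
          SimpleGraph.mem_edgeSet]
        exact ⟨hGadj c hc.1, hc.2⟩
      · intro c hc c' hc' heq
        simp only [hR1, coe_filter, Set.mem_ofPred_eq] at hc hc'
        simp only [Sym2.eq_iff, Sum.inl.injEq, Sum.inr.injEq, reduceCtorEq, and_self,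
          or_false] at heq
        exact hxy c hc.1 c' hc'.1 heq.1 heq.2
    have h2 : G'.edgeFinset ⊆ G.edgeFinset := by
      intro e' he'
      rw [SimpleGraph.mem_edgeFinset] at he' ⊢
      exact SimpleGraph.edgeSet_mono SimpleGraph.regularityReduced_le he'
    have h3 : (#(G.edgeFinset \ G'.edgeFinset) : ℝ) = #G.edgeFinset - #G'.edgeFinset := by
      rw [cast_card_sdiff h2]
    have h4 : (#R1 : ℝ) ≤ #G.edgeFinset - #G'.edgeFinset := by
      rw [← h3]; exact_mod_cast h1
    linarith
  have hR2card : (#R2 : ℝ) ≤ (e / 8) * card V * card (V ⊕ V) :=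
    light_card P C (fun c => Sum.inl (x c)) p (e / 8) (by positivity)
  have hR3card : (#R3 : ℝ) ≤ (e / 8) * card V * card (V ⊕ V) :=
    light_card P C (fun c => Sum.inr (y c)) q (e / 8) (by positivity)
  -- some clause is good
  have hgood : ∃ c ∈ C, c ∉ R1 ∧ c ∉ R2 ∧ c ∉ R3 := by
    by_contra hno
    push Not at hno
    have hsub : C ⊆ R1 ∪ R2 ∪ R3 := by
      intro c hc
      by_cases h1 : c ∈ R1
      · exact mem_union_left _ (mem_union_left _ h1)
      by_cases h2 : c ∈ R2
      · exact mem_union_left _ (mem_union_right _ h2)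
      · exact mem_union_right _ (hno c hc h1 h2)
    have hle : (#C : ℝ) ≤ #R1 + #R2 + #R3 := by
      have := (card_le_card hsub).trans ((card_union_le _ _).trans
        (Nat.add_le_add_right (card_union_le _ _) _))
      exact_mod_cast this
    rw [hcardα] at hR1card hR2card hR3card
    push_cast at hR1card hR2card hR3card
    have hn2 : 0 < (card V : ℝ) ^ 2 := by positivity
    have : (#C : ℝ) < ε * (card V : ℝ) ^ 2 := by
      calc (#C : ℝ) ≤ #R1 + #R2 + #R3 := hle
        _ < e * (2 * (card V : ℝ)) ^ 2 + (e / 8) * card V * (2 * card V)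
            + (e / 8) * card V * (2 * card V) := by linarith
        _ ≤ ε * (card V : ℝ) ^ 2 := by
            rw [he]; nlinarith
    linarith
  obtain ⟨c, hc, hc1, hc2, hc3⟩ := hgood
  simp only [hR1, mem_filter, hc, true_and, not_not] at hc1
  simp only [hR2, mem_filter, hc, true_and, not_lt] at hc2
  simp only [hR3, mem_filter, hc, true_and, not_lt] at hc3
  obtain ⟨-, U, hU, W, hW, hxU, hyW, hne, huni, hdens⟩ := hc1
  rw [P.part_eq_of_mem hU hxU] at hc2
  rw [P.part_eq_of_mem hW hyW] at hc3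
  set A0 := C.filter fun b => p b = p c ∧ (Sum.inl (x b) : V ⊕ V) ∈ U with hA0
  set B0 := C.filter fun b => q b = q c ∧ (Sum.inr (y b) : V ⊕ V) ∈ W with hB0
  set A : Finset (V ⊕ V) := A0.image fun b => Sum.inl (x b) with hA
  set B' : Finset (V ⊕ V) := B0.image fun b => Sum.inr (y b) with hB'
  have hAcard : #A = #A0 := by
    apply card_image_of_injOn
    intro b hb b' hb' heq
    simp only [hA0, coe_filter, Set.mem_ofPred_eq] at hb hb'
    exact hxp b hb.1 b' hb'.1 (Sum.inl_injective heq) (hb.2.1.trans hb'.2.1.symm)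
  have hBcard : #B' = #B0 := by
    apply card_image_of_injOn
    intro b hb b' hb' heq
    simp only [hB0, coe_filter, Set.mem_ofPred_eq] at hb hb'
    exact hyq b hb.1 b' hb'.1 (Sum.inr_injective heq) (hb.2.1.trans hb'.2.1.symm)
  have hAU : A ⊆ U := by
    intro u hu
    simp only [hA, hA0, mem_image, mem_filter] at hu
    obtain ⟨b, hb, rfl⟩ := hu
    exact hb.2.2
  have hBW : B' ⊆ W := by
    intro u hu
    simp only [hB', hB0, mem_image, mem_filter] at hu
    obtain ⟨b, hb, rfl⟩ := hu
    exact hb.2.2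
  have hAbig : (#U : ℝ) * (e / 8) ≤ #A := by rw [hAcard]; linarith
  have hBbig : (#W : ℝ) * (e / 8) ≤ #B' := by rw [hBcard]; linarith
  have hdAB := huni hAU hBW hAbig hBbig
  have hdAB' : e / 8 < (G.edgeDensity A B' : ℝ) := by
    rw [abs_lt] at hdAB
    linarith [hdAB.1]
  -- many edges between `A` and `B'`
  have hUcard : (card V : ℝ) / B ≤ #U := by
    have := card_bound hP₁ hP₃ hU
    rw [hcardα] at this
    push_cast at this
    calc (card V : ℝ) / B = 2 * card V / (2 * B) := by
          rw [mul_div_mul_left _ _ (two_ne_zero)]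
      _ ≤ #U := this
  have hWcard : (card V : ℝ) / B ≤ #W := by
    have := card_bound hP₁ hP₃ hW
    rw [hcardα] at this
    push_cast at this
    calc (card V : ℝ) / B = 2 * card V / (2 * B) := by
          rw [mul_div_mul_left _ _ (two_ne_zero)]
      _ ≤ #W := this
  have hBR : (0 : ℝ) < B := by exact_mod_cast hBpos
  have hVR : (0 : ℝ) < card V := by exact_mod_cast hn0
  have hUpos : (0 : ℝ) < #U := lt_of_lt_of_le (by positivity) hUcard
  have hWpos : (0 : ℝ) < #W := lt_of_lt_of_le (by positivity) hWcard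
  have hApos : (0 : ℝ) < #A := lt_of_lt_of_le (by positivity) hAbig
  have hBpos' : (0 : ℝ) < #B' := lt_of_lt_of_le (by positivity) hBbig
  have hmany : (e / 8) ^ 3 * ((card V : ℝ) / B) ^ 2 < #(G.interedges A B') := by
    have h1 : (G.edgeDensity A B' : ℝ) = #(G.interedges A B') / (#A * #B') := by
      rw [SimpleGraph.edgeDensity_def]; push_cast; ring
    rw [h1, lt_div_iff₀ (by positivity)] at hdAB'
    refine lt_of_le_of_lt ?_ hdAB'
    calc (e / 8) ^ 3 * ((card V : ℝ) / B) ^ 2
        = (e / 8) * ((((card V : ℝ) / B) * (e / 8)) * (((card V : ℝ) / B) * (e / 8))) := by ring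
      _ ≤ (e / 8) * ((#U * (e / 8)) * (#W * (e / 8))) := by gcongr
      _ ≤ (e / 8) * (#A * #B') := by gcongr
  -- few edges between `A` and `B'`
  set Sp := C.filter fun b => p b = p c with hSp
  set Sq := C.filter fun b => q b = q c with hSq
  have hSpcard : #Sp ≤ card V := by
    rw [← card_univ]
    refine card_le_card_of_injOn x (fun _ _ => mem_coe.2 (mem_univ _)) ?_
    intro b hb b' hb' heq
    simp only [hSp, coe_filter, Set.mem_ofPred_eq] at hb hb'
    exact hxp b hb.1 b' hb'.1 heq (hb.2.trans hb'.2.symm)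
  have hSqcard : #Sq ≤ card V := by
    rw [← card_univ]
    refine card_le_card_of_injOn y (fun _ _ => mem_coe.2 (mem_univ _)) ?_
    intro b hb b' hb' heq
    simp only [hSq, coe_filter, Set.mem_ofPred_eq] at hb hb'
    exact hyq b hb.1 b' hb'.1 heq (hb.2.trans hb'.2.symm)
  have hfew : #(G.interedges A B') ≤ #(Sp ∪ Sq) := by
    have hsub : G.interedges A B' ⊆ (Sp ∪ Sq).image
        fun c' => ((Sum.inl (x c') : V ⊕ V), (Sum.inr (y c') : V ⊕ V)) := by
      rintro ⟨u, v⟩ huv
      rw [SimpleGraph.mem_interedges_iff] at huv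
      obtain ⟨hu, hv, huv⟩ := huv
      simp only [hA, hA0, mem_image, mem_filter] at hu
      simp only [hB', hB0, mem_image, mem_filter] at hv
      obtain ⟨a, ⟨haC, hpa, -⟩, rfl⟩ := hu
      obtain ⟨d, ⟨hdC, hqd, -⟩, rfl⟩ := hv
      rcases huv with ⟨c', hc', h1, h2⟩ | ⟨c', hc', h1, h2⟩
      · have hx : x a = x c' := Sum.inl_injective h1
        have hy : y d = y c' := Sum.inr_injective h2
        simp only [mem_image, mem_union, hSp, hSq, mem_filter]
        refine ⟨c', ?_, by rw [hx, hy]⟩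
        by_contra hcon
        push Not at hcon
        refine hforb a haC c hc c' hc' d hdC ?_ ?_ hx hpa hqd.symm hy
        · rintro rfl
          exact hcon.1 haC hpa
        · rintro rfl
          exact hcon.2 hdC hqd
      · cases h1
    exact (card_le_card hsub).trans card_image_le
  have hfew' : (#(G.interedges A B') : ℝ) ≤ 2 * card V := by
    have := hfew.trans (card_union_le _ _)
    have h2 : #(G.interedges A B') ≤ 2 * card V := by omega
    exact_mod_cast h2
  have hfin : (e / 8) ^ 3 * ((card V : ℝ) / B) ^ 2 < 2 * card V := lt_of_lt_of_le hmany hfew'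
  have : (card V : ℝ) < M := by
    rw [hM, lt_div_iff₀ (by positivity)]
    have h5 : (e / 8) ^ 3 * ((card V : ℝ) / B) ^ 2 * B ^ 2 = (e / 8) ^ 3 * (card V : ℝ) ^ 2 := by
      rw [div_pow]
      field_simp
    have h6 : (e / 8) ^ 3 * (card V : ℝ) ^ 2 < 2 * card V * B ^ 2 := by
      rw [← h5]
      gcongr
    have h7 : (card V : ℝ) * ((card V : ℝ) * (e / 8) ^ 3) < card V * (2 * B ^ 2) := by
      nlinarith
    exact lt_of_mul_lt_mul_left h7 hVR.le
  linarith

end Pool.Agent.V11247.Nrd
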