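import Pool.Agent.V11247.Nrd.Model
import Pool.Agent.V11247.Nrd.Reg

/-!
# The 12-ary Boolean predicate: `Ω(n^{3/2})` and `o(n²)`
-/

open Finset

namespace Pool.Agent.V11247.Nrd

/-- The twelve positions `(A, (s₁, s₂))`: a pair `(A, A+1)` of the three bits `0, 1, 2` and a pair
of values. -/
abbrev Pos : Type := Fin 3 × Bool × Bool

/-- The row of `u ∈ {0,1}³`: at position `(A, (s₁, s₂))` it has the truth value of
`u A = s₁ ∧ u (A+1) = s₂`. -/
def row (u : Fin 3 → Bool) : Pos → Bool := fun i => decide (u i.1 = i.2.1 ∧ u (i.1 + 1) = i.2.2)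

/-- The predicate: rows of all `u ≠ 111`. -/
def Pr : Set (Pos → Bool) := {v | ∃ u : Fin 3 → Bool, u ≠ (fun _ => true) ∧ v = row u}

theorem row_not_mem : row (fun _ => true) ∉ Pr := by
  rintro ⟨u, hu, h⟩
  apply hu
  funext A
  have := congrFun h (A, true, true)
  simp [row] at this
  exact this.1

/-- block sums and agreement equations -/
def lam1 (A : Fin 3) : Pos → ℤ := fun i => if i.1 = A then 1 else 0
def lam2 (A : Fin 3) : Pos → ℤ := fun i =>
  (if i.1 = A ∧ i.2.2 = true then 1 else 0) - (if i.1 = A + 1 ∧ i.2.1 = true then 1 else 0)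

theorem row_eq1 : ∀ (u : Fin 3 → Bool) (A : Fin 3), ∑ i, lam1 A i * bv (row u i) = 1 := by
  decide

theorem row_eq2 : ∀ (u : Fin 3 → Bool) (A : Fin 3), ∑ i, lam2 A i * bv (row u i) = 0 := by
  decide

theorem block (a b c d : Bool) (h : bv a + bv b + (bv c + bv d) = 1) :
    ∃ s t : Bool, a = decide (s = true ∧ t = true) ∧ b = decide (s = true ∧ t = false) ∧
      c = decide (s = false ∧ t = true) ∧ d = decide (s = false ∧ t = false) := by
  revert h; revert a b c d; decide

theorem decode (v : Pos → Bool) (h1 : ∀ A, ∑ i, lam1 A i * bv (v i) = 1)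
    (h2 : ∀ A, ∑ i, lam2 A i * bv (v i) = 0) : ∃ u, v = row u := by
  have hb : ∀ A, ∃ s t : Bool, ∀ i : Bool × Bool, v (A, i) = decide (s = i.1 ∧ t = i.2) := by
    intro A
    have h := h1 A
    have h' : bv (v (A, true, true)) + bv (v (A, true, false)) +
        (bv (v (A, false, true)) + bv (v (A, false, false))) = 1 := by
      rw [Fintype.sum_prod_type] at h
      rw [Finset.sum_eq_single A] at h
      · simpa [lam1, Fintype.sum_prod_type] using h
      · intro B _ hB
        simp [lam1, hB]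
      · intro hh; exact absurd (mem_univ _) hh
    obtain ⟨s, t, e1, e2, e3, e4⟩ := block _ _ _ _ h'
    refine ⟨s, t, ?_⟩
    rintro ⟨i, j⟩
    cases i <;> cases j <;> assumption
  choose s t hst using hb
  have hagree : ∀ A, t A = s (A + 1) := by
    intro A
    have h := h2 A
    simp only [lam2, sub_mul, sum_sub_distrib] at h
    rw [Fintype.sum_prod_type, Fintype.sum_prod_type] at h
    rw [Finset.sum_eq_single A, Finset.sum_eq_single (A + 1)] at h
    · simp only [hst, Fintype.sum_prod_type, Fintype.sum_bool] at h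
      revert h
      generalize s A = a
      generalize t A = b
      generalize s (A + 1) = c
      generalize t (A + 1) = d
      revert a b c d
      simp only [true_and]
      decide
    · intro B _ hB
      simp [hB]
    · intro hh; exact absurd (mem_univ _) hh
    · intro B _ hB
      simp [hB]
    · intro hh; exact absurd (mem_univ _) hh
  refine ⟨s, ?_⟩
  funext ⟨A, i⟩
  rw [hst, hagree]
  rfl

/-- few clauses are violated with a tuple other than `row 111`. -/
theorem upper {ε : ℝ} (hε : 0 < ε) : ∃ N₀ : ℕ, ∀ (V : Type) [Fintype V]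
    (C : Finset (Pos → V)), NonRedundant Pr C → N₀ ≤ Fintype.card V →
    (#C : ℝ) ≤ ε * (Fintype.card V : ℝ) ^ 2 + 6 * (Fintype.card V + 1) := by
  classical
  obtain ⟨N₀, hN₀⟩ := few hε
  refine ⟨N₀, ?_⟩
  intro V _ C hC hn
  set Ct := C.filter fun c => ∃ ψ : V → Bool, (fun i => ψ (c i)) = row (fun _ => true) ∧
    ∀ c' ∈ C, c' ≠ c → (fun i => ψ (c' i)) ∈ Pr with hCt
  set C1 : Fin 3 → Finset (Pos → V) := fun A => C.filter fun c => ∃ ψ : V → Bool,
    ∑ i, lam1 A i * bv (ψ (c i)) ≠ 1 ∧ ∀ c' ∈ C, c' ≠ c → (fun i => ψ (c' i)) ∈ Pr with hC1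
  set C2 : Fin 3 → Finset (Pos → V) := fun A => C.filter fun c => ∃ ψ : V → Bool,
    ∑ i, lam2 A i * bv (ψ (c i)) ≠ 0 ∧ ∀ c' ∈ C, c' ≠ c → (fun i => ψ (c' i)) ∈ Pr with hC2
  have hcover : C ⊆ Ct ∪ (univ.biUnion C1 ∪ univ.biUnion C2) := by
    intro c hc
    obtain ⟨ψ, h1, h2⟩ := hC c hc
    by_cases hA : ∀ A, ∑ i, lam1 A i * bv (ψ (c i)) = 1
    · by_cases hB : ∀ A, ∑ i, lam2 A i * bv (ψ (c i)) = 0
      · obtain ⟨u, hu⟩ := decode (fun i => ψ (c i)) hA hB
        have hu1 : u = fun _ => true := by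
          by_contra hne
          exact h1 ⟨u, hne, hu⟩
        apply mem_union_left
        rw [hCt, mem_filter]
        exact ⟨hc, ψ, by rw [hu, hu1], h2⟩
      · push Not at hB
        obtain ⟨A, hA'⟩ := hB
        apply mem_union_right
        apply mem_union_right
        rw [mem_biUnion]
        exact ⟨A, mem_univ _, mem_filter.2 ⟨hc, ψ, hA', h2⟩⟩
    · push Not at hA
      obtain ⟨A, hA'⟩ := hA
      apply mem_union_right
      apply mem_union_left
      rw [mem_biUnion]
      exact ⟨A, mem_univ _, mem_filter.2 ⟨hc, ψ, hA', h2⟩⟩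
  have hlin1 : ∀ A, #(C1 A) ≤ Fintype.card V + 1 := by
    intro A
    apply linear_bound (lam1 A) 1
    intro c hc
    obtain ⟨hcC, ψ, h1, h2⟩ := mem_filter.1 hc
    refine ⟨ψ, h1, ?_⟩
    intro c' hc' hne
    obtain ⟨u, -, hu⟩ := h2 c' (mem_filter.1 hc').1 hne
    have := row_eq1 u A
    rw [← hu] at this
    exact this
  have hlin2 : ∀ A, #(C2 A) ≤ Fintype.card V + 1 := by
    intro A
    apply linear_bound (lam2 A) 0
    intro c hc
    obtain ⟨hcC, ψ, h1, h2⟩ := mem_filter.1 hc
    refine ⟨ψ, h1, ?_⟩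
    intro c' hc' hne
    obtain ⟨u, -, hu⟩ := h2 c' (mem_filter.1 hc').1 hne
    have := row_eq2 u A
    rw [← hu] at this
    exact this
  -- the main part
  have hkey : ∀ c ∈ Ct, ∃ ψ : V → Bool, (∀ i, ψ (c i) = row (fun _ => true) i) ∧
      ∀ c' ∈ C, c' ≠ c → ∃ u : Fin 3 → Bool, ¬ (u 0 = true ∧ u 1 = true ∧ u 2 = true) ∧
        ∀ i, ψ (c' i) = row u i := by
    intro c hc
    obtain ⟨hcC, ψ, h1, h2⟩ := mem_filter.1 hc
    refine ⟨ψ, fun i => congrFun h1 i, ?_⟩
    intro c' hc' hne
    obtain ⟨u, hu, huv⟩ := h2 c' hc' hne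
    refine ⟨u, ?_, fun i => congrFun huv i⟩
    rintro ⟨h0, h1, h2⟩
    apply hu
    funext i
    fin_cases i <;> assumption
  have hCtC : ∀ c ∈ Ct, c ∈ C := fun c hc => (mem_filter.1 hc).1
  have hmain : (#Ct : ℝ) ≤ ε * (Fintype.card V : ℝ) ^ 2 := by
    apply hN₀ V (Pos → V) Ct (fun c => c (0, true, true)) (fun c => c (1, true, true))
      (fun c => c (2, false, true)) (fun c => c (0, false, true)) ?_ ?_ ?_ ?_ hn
    · intro c hc c' hc' hx hy
      by_contra hne
      obtain ⟨ψ, h1, h2⟩ := hkey c hc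
      obtain ⟨u, hu, h3⟩ := h2 c' (hCtC _ hc') (Ne.symm hne)
      have ex := h3 (0, true, true)
      have ey := h3 (1, true, true)
      rw [← hx, h1] at ex
      rw [← hy, h1] at ey
      simp [row] at ex ey
      exact hu ⟨ex.1, ey.1, ey.2⟩
    · intro c hc c' hc' hx hp
      by_contra hne
      obtain ⟨ψ, h1, h2⟩ := hkey c hc
      obtain ⟨u, hu, h3⟩ := h2 c' (hCtC _ hc') (Ne.symm hne)
      have ex := h3 (0, true, true)
      have ep := h3 (2, false, true)
      rw [← hx, h1] at ex
      rw [← hp, h1] at ep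
      simp [row] at ex ep
      have : u 2 = true := by
        by_contra h2f
        have := ep (by simpa using h2f)
        rw [ex.1] at this
        exact absurd this (by decide)
      exact hu ⟨ex.1, ex.2, this⟩
    · intro c hc c' hc' hy hq
      by_contra hne
      obtain ⟨ψ, h1, h2⟩ := hkey c hc
      obtain ⟨u, hu, h3⟩ := h2 c' (hCtC _ hc') (Ne.symm hne)
      have ey := h3 (1, true, true)
      have eq := h3 (0, false, true)
      rw [← hy, h1] at ey
      rw [← hq, h1] at eq
      simp [row] at ey eq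
      have : u 0 = true := by
        by_contra h0f
        have := eq (by simpa using h0f)
        rw [ey.1] at this
        exact absurd this (by decide)
      exact hu ⟨this, ey.1, ey.2⟩
    · intro a ha b hb c hc d hd hac hdc hx hp hq hy
      obtain ⟨ψ, h1, h2⟩ := hkey c hc
      obtain ⟨ua, hua, ha3⟩ := h2 a (hCtC _ ha) hac
      obtain ⟨ud, hud, hd3⟩ := h2 d (hCtC _ hd) hdc
      -- `ua = 110`
      have ex := ha3 (0, true, true)
      rw [hx, h1] at ex
      simp [row] at ex
      have hua2 : ua 2 = false := by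
        by_contra h
        exact hua ⟨ex.1, ex.2, by simpa using h⟩
      have ep : ψ (b (2, false, true)) = true := by
        rw [← hp, ha3]
        simp [row, hua2, ex.1]
      -- `ud = 011`
      have ey := hd3 (1, true, true)
      rw [hy, h1] at ey
      simp [row] at ey
      have hud0 : ud 0 = false := by
        by_contra h
        exact hud ⟨by simpa using h, ey.1, ey.2⟩
      have eq : ψ (b (0, false, true)) = true := by
        rw [hq, hd3]
        simp [row, hud0, ey.1]
      have hbc : b ≠ c := by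
        rintro rfl
        rw [h1] at ep
        simp [row] at ep
      obtain ⟨ub, hub, hb3⟩ := h2 b (hCtC _ hb) hbc
      rw [hb3] at ep eq
      simp [row] at ep eq
      rw [ep.2] at eq
      exact absurd eq.1 (by decide)
  have hle : #C ≤ #Ct + (∑ A, #(C1 A) + ∑ A, #(C2 A)) :=
    (card_le_card hcover).trans ((card_union_le _ _).trans
      (Nat.add_le_add_left ((card_union_le _ _).trans
        (Nat.add_le_add card_biUnion_le card_biUnion_le)) _))
  have hs1 : ∑ A, #(C1 A) ≤ 3 * (Fintype.card V + 1) := by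
    calc ∑ A, #(C1 A) ≤ ∑ _A : Fin 3, (Fintype.card V + 1) := sum_le_sum fun A _ => hlin1 A
      _ = 3 * (Fintype.card V + 1) := by simp
  have hs2 : ∑ A, #(C2 A) ≤ 3 * (Fintype.card V + 1) := by
    calc ∑ A, #(C2 A) ≤ ∑ _A : Fin 3, (Fintype.card V + 1) := sum_le_sum fun A _ => hlin2 A
      _ = 3 * (Fintype.card V + 1) := by simp
  have hle' : #C ≤ #Ct + 6 * (Fintype.card V + 1) := by omega
  have hle'' : (#C : ℝ) ≤ #Ct + 6 * (Fintype.card V + 1) := by exact_mod_cast hle'
  linarith

/-- the grid instance -/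
def gcl (m : ℕ) (f : Fin 3 → Fin m) : Pos → Pos × Fin m × Fin m :=
  fun i => (i, f i.1, f (i.1 + 1))

theorem gcl_inj (m : ℕ) : Function.Injective (gcl m) := by
  intro f g h
  funext A
  have := congrFun h (A, true, true)
  simp only [gcl, Prod.mk.injEq] at this
  exact this.2.1

theorem grid_nonRedundant (m : ℕ) :
    NonRedundant Pr ((univ : Finset (Fin 3 → Fin m)).image (gcl m)) := by
  classical
  intro c hc
  obtain ⟨f, -, rfl⟩ := mem_image.1 hc
  refine ⟨fun z => decide (decide (z.2.1 = f z.1.1) = z.1.2.1 ∧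
    decide (z.2.2 = f (z.1.1 + 1)) = z.1.2.2), ?_, ?_⟩
  · have : (fun i => (fun z : Pos × Fin m × Fin m => decide (decide (z.2.1 = f z.1.1) = z.1.2.1 ∧
        decide (z.2.2 = f (z.1.1 + 1)) = z.1.2.2)) (gcl m f i)) = row (fun _ => true) := by
      funext i
      simp [gcl, row]
    rw [this]
    exact row_not_mem
  · intro c' hc' hne
    obtain ⟨g, -, rfl⟩ := mem_image.1 hc'
    refine ⟨fun A => decide (g A = f A), ?_, ?_⟩
    · intro h
      apply hne
      congr 1
      funext A
      have := congrFun h A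
      simpa using this
    · funext i
      simp only [gcl, row]
      congr

end Pool.Agent.V11247.Nrd
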