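import Pool.Agent.V11247.Nrd.Lead
import Pool.Agent.V11247.Nrd.Pred

/-!
# The 12-ary predicate has non-redundancy `O(n^{3/2})`
-/

open Finset Module

namespace Pool.Agent.V11247.Nrd

/-- `{0,1}`-value of a Boolean, in `ℚ`. -/
def bq (b : Bool) : ℚ := if b then 1 else 0

/-- a clause with its own assignment, decoded -/
structure Sys (N : ℕ) (V : Type) where
  cl : Fin N → (Pos → V)
  ψ : Fin N → (V → Bool)
  u : Fin N → Fin N → (Fin 3 → Bool)
  hu : ∀ d c i, ψ d (cl c i) = row (u d c) i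
  diag : ∀ c A, u c c A = true
  off : ∀ d c, d ≠ c → ¬ (u d c 0 = true ∧ u d c 1 = true ∧ u d c 2 = true)

variable {N : ℕ} {V : Type}

namespace Sys

variable (S : Sys N V)

/-- the bit `A` of the clause `c` under the assignment of `d`. -/
def b (c : Fin N) (A : Fin 3) (d : Fin N) : ℚ := bq (S.u d c A)

/-- the symmetric tensor of the clause `c`. -/
def T (c : Fin N) : Fin N × Fin N × Fin N → ℚ := fun p =>
  S.b c 0 p.1 * S.b c 1 p.2.1 * S.b c 2 p.2.2 + S.b c 0 p.1 * S.b c 1 p.2.2 * S.b c 2 p.2.1 +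
  S.b c 0 p.2.1 * S.b c 1 p.1 * S.b c 2 p.2.2 + S.b c 0 p.2.1 * S.b c 1 p.2.2 * S.b c 2 p.1 +
  S.b c 0 p.2.2 * S.b c 1 p.1 * S.b c 2 p.2.1 + S.b c 0 p.2.2 * S.b c 1 p.2.1 * S.b c 2 p.1

/-- squares of the variables and of their negations -/
def Q : V ⊕ V → (Fin N × Fin N → ℚ)
  | Sum.inl v => fun p => bq (S.ψ p.1 v) * bq (S.ψ p.2 v)
  | Sum.inr v => fun p => (1 - bq (S.ψ p.1 v)) * (1 - bq (S.ψ p.2 v))

/-- the space of slices -/
def W : Submodule ℚ (Fin N × Fin N → ℚ) := Submodule.span ℚ (Set.range S.Q)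

theorem finrank_W [Fintype V] : finrank ℚ S.W ≤ 2 * Fintype.card V := by
  have := finrank_range_le_card (R := ℚ) S.Q
  rw [Fintype.card_sum] at this
  rw [two_mul]
  exact this

theorem Q_mem (v : V ⊕ V) : S.Q v ∈ S.W := Submodule.subset_span ⟨v, rfl⟩

theorem bq_sym : ∀ a b c d : Bool, bq a * bq d + bq b * bq c =
    (1 - bq (decide (a = false ∧ c = false))) * (1 - bq (decide (b = false ∧ d = false))) +
    bq (decide (a = true ∧ c = true)) * bq (decide (b = true ∧ d = true)) -
    bq (decide (a = true ∧ c = false)) * bq (decide (b = true ∧ d = false)) -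
    bq (decide (a = false ∧ c = true)) * bq (decide (b = false ∧ d = true)) := by
  intro a b c d
  cases a <;> cases b <;> cases c <;> cases d <;> norm_num [bq]

/-- the symmetrised product of neighbouring bits -/
theorem sym_eq (c : Fin N) (A : Fin 3) (x y : Fin N) :
    S.b c A x * S.b c (A + 1) y + S.b c A y * S.b c (A + 1) x =
      S.Q (Sum.inr (S.cl c (A, false, false))) (x, y) +
      S.Q (Sum.inl (S.cl c (A, true, true))) (x, y) -
      S.Q (Sum.inl (S.cl c (A, true, false))) (x, y) -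
      S.Q (Sum.inl (S.cl c (A, false, true))) (x, y) := by
  simp only [Q, b, S.hu, row]
  exact bq_sym _ _ _ _

theorem sym_mem (c : Fin N) (A : Fin 3) :
    (fun p : Fin N × Fin N => S.b c A p.1 * S.b c (A + 1) p.2 + S.b c A p.2 * S.b c (A + 1) p.1)
      ∈ S.W := by
  have : (fun p : Fin N × Fin N =>
      S.b c A p.1 * S.b c (A + 1) p.2 + S.b c A p.2 * S.b c (A + 1) p.1) =
      S.Q (Sum.inr (S.cl c (A, false, false))) + S.Q (Sum.inl (S.cl c (A, true, true))) -
      S.Q (Sum.inl (S.cl c (A, true, false))) - S.Q (Sum.inl (S.cl c (A, false, true))) := by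
    funext p
    exact S.sym_eq c A p.1 p.2
  rw [this]
  exact sub_mem (sub_mem (add_mem (S.Q_mem _) (S.Q_mem _)) (S.Q_mem _)) (S.Q_mem _)

/-- the slices of the tensors lie in `W`. -/
theorem slice_mem (c z : Fin N) :
    (fun p : Fin N × Fin N =>
      S.b c 2 z * (S.b c 0 p.1 * S.b c 1 p.2 + S.b c 0 p.2 * S.b c 1 p.1) +
      S.b c 0 z * (S.b c 1 p.1 * S.b c 2 p.2 + S.b c 1 p.2 * S.b c 2 p.1) +
      S.b c 1 z * (S.b c 2 p.1 * S.b c 0 p.2 + S.b c 2 p.2 * S.b c 0 p.1)) ∈ S.W := by
  have h0 := S.W.smul_mem (S.b c 2 z) (S.sym_mem c 0)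
  have h1 := S.W.smul_mem (S.b c 0 z) (S.sym_mem c 1)
  have h2 := S.W.smul_mem (S.b c 1 z) (S.sym_mem c 2)
  have h := add_mem (add_mem h0 h1) h2
  exact h

theorem T_12 (c z : Fin N) : (fun p : Fin N × Fin N => S.T c (p.1, p.2, z)) ∈ S.W := by
  convert S.slice_mem c z using 1
  funext p
  simp only [T]
  ring

theorem T_13 (c z : Fin N) : (fun p : Fin N × Fin N => S.T c (p.1, z, p.2)) ∈ S.W := by
  convert S.slice_mem c z using 1
  funext p
  simp only [T]
  ring

theorem T_23 (c z : Fin N) : (fun p : Fin N × Fin N => S.T c (z, p.1, p.2)) ∈ S.W := by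
  convert S.slice_mem c z using 1
  funext p
  simp only [T]
  ring

theorem T_diag (c d : Fin N) : S.T c (d, d, d) = if d = c then 6 else 0 := by
  have hT : S.T c (d, d, d) = 6 * (S.b c 0 d * S.b c 1 d * S.b c 2 d) := by
    simp only [T]; ring
  rw [hT]
  split_ifs with h
  · subst h
    simp [b, S.diag, bq]
  · have := S.off d c h
    simp only [b, bq]
    by_cases h0 : S.u d c 0 = true
    · by_cases h1 : S.u d c 1 = true
      · have h2 : ¬ S.u d c 2 = true := fun h2 => this ⟨h0, h1, h2⟩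
        simp [h2]
      · simp [h1]
    · simp [h0]

theorem T_li : LinearIndependent ℚ S.T := by
  rw [Fintype.linearIndependent_iff]
  intro g hg d
  have h := congrFun hg (d, d, d)
  simp only [Finset.sum_apply, Pi.smul_apply, S.T_diag, smul_eq_mul, mul_ite, mul_zero,
    Finset.sum_ite_eq, mem_univ, if_true, Pi.zero_apply] at h
  linarith

include S in
theorem bound [Fintype V] : N ^ 2 ≤ (2 * Fintype.card V) ^ 3 := by
  have hF : finrank ℚ (Submodule.span ℚ (Set.range S.T)) = N := by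
    rw [finrank_span_eq_card S.T_li, Fintype.card_fin]
  have key := linear_LW (Submodule.span ℚ (Set.range S.T)) S.W ?_ ?_ ?_
  · rw [hF] at key
    exact key.trans (Nat.pow_le_pow_left S.finrank_W 3)
  · intro f hf z
    have hle : Submodule.span ℚ (Set.range S.T) ≤ S.W.comap
        (LinearMap.funLeft ℚ ℚ (fun p : Fin N × Fin N => (p.1, p.2, z))) := by
      rw [Submodule.span_le]
      rintro _ ⟨c, rfl⟩
      exact S.T_12 c z
    exact hle hf
  · intro f hf z
    have hle : Submodule.span ℚ (Set.range S.T) ≤ S.W.comap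
        (LinearMap.funLeft ℚ ℚ (fun p : Fin N × Fin N => (p.1, z, p.2))) := by
      rw [Submodule.span_le]
      rintro _ ⟨c, rfl⟩
      exact S.T_13 c z
    exact hle hf
  · intro f hf z
    have hle : Submodule.span ℚ (Set.range S.T) ≤ S.W.comap
        (LinearMap.funLeft ℚ ℚ (fun p : Fin N × Fin N => (z, p.1, p.2))) := by
      rw [Submodule.span_le]
      rintro _ ⟨c, rfl⟩
      exact S.T_23 c z
    exact hle hf

end Sys

end Pool.Agent.V11247.Nrd
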