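import Pool.Agent.V11247.Nrd.Pred

/-!
# Boolean non-redundancy strictly between linear and quadratic
-/

open Finset Filter Topology

namespace Pool.Agent.V11247.Nrd

theorem card_pos_eq : Fintype.card Pos = 12 := by
  simp [Pos]

/-- An enumeration of the twelve positions. -/
noncomputable def σ : Fin 12 ≃ Pos := (Fintype.equivFinOfCardEq card_pos_eq).symm

/-- The predicate as a subset of `{0,1}^{12}`. -/
def P12 : Set (Fin 12 → Bool) := {v | (fun i => v (σ.symm i)) ∈ Pr}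

theorem lower12 (m n : ℕ) (h : 12 * m ^ 2 ≤ n) : m ^ 3 ≤ NRD P12 n := by
  classical
  have h1 := grid_nonRedundant m
  have hcard : Fintype.card (Pos × Fin m × Fin m) ≤ Fintype.card (Fin n) := by
    rw [Fintype.card_prod, card_pos_eq, Fintype.card_prod, Fintype.card_fin, Fintype.card_fin]
    nlinarith
  obtain ⟨g⟩ := Function.Embedding.nonempty_of_card_le hcard
  have h2 := (h1.map g g.injective).reindex σ
  have h3 : #((((univ : Finset (Fin 3 → Fin m)).image (gcl m)).image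
      fun c i => g (c i)).image fun c j => c (σ j)) = m ^ 3 := by
    rw [card_image_of_injective, card_image_of_injective, card_image_of_injective]
    · simp
    · exact gcl_inj m
    · intro c d hcd
      funext i
      exact g.injective (congrFun hcd i)
    · intro c d hcd
      funext i
      have := congrFun hcd (σ.symm i)
      simpa using this
  rw [← h3]
  exact le_nrd h2

theorem upper12 {ε : ℝ} (hε : 0 < ε) : ∃ N₀ : ℕ, ∀ n : ℕ, N₀ ≤ n →
    (NRD P12 n : ℝ) ≤ ε * (n : ℝ) ^ 2 + 6 * (n + 1) := by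
  classical
  obtain ⟨N₀, hN₀⟩ := upper hε
  refine ⟨N₀, fun n hn => ?_⟩
  obtain ⟨C, hC, hcard⟩ := exists_nrd P12 n
  have h1 := hC.reindex σ.symm
  have h2 : {v : Pos → Bool | (fun i => v (σ.symm.symm i)) ∈ P12} = Pr := by
    ext v
    simp [P12]
  rw [h2] at h1
  have h3 : #(C.image fun c j => c (σ.symm j)) = #C := by
    apply card_image_of_injective
    intro c d hcd
    funext i
    have := congrFun hcd (σ i)
    simpa using this
  have := hN₀ (Fin n) _ h1 (by simpa using hn)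
  rw [h3, hcard] at this
  simpa using this

theorem lower_eventually : ∀ᶠ n : ℕ in atTop,
    (1 / 400 : ℝ) * (n : ℝ) ^ ((3 : ℝ) / 2) ≤ NRD P12 n := by
  filter_upwards [eventually_ge_atTop 12] with n hn
  set m := Nat.sqrt (n / 12) with hm
  have h1 : 12 * m ^ 2 ≤ n := by
    have : m * m ≤ n / 12 := Nat.sqrt_le _
    have h2 : 12 * (n / 12) ≤ n := Nat.mul_div_le n 12
    nlinarith
  have hm1 : 1 ≤ m := by
    rw [hm, Nat.le_sqrt]
    omega
  have h2 : n < 12 * (m + 1) ^ 2 := by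
    have : n / 12 < (m + 1) * (m + 1) := Nat.lt_succ_sqrt (n / 12)
    have h3 : n < 12 * (n / 12 + 1) := by omega
    nlinarith
  have h3 : (n : ℝ) ≤ 48 * (m : ℝ) ^ 2 := by
    have : n ≤ 48 * m ^ 2 := by nlinarith
    exact_mod_cast this
  have h4 : (m : ℝ) ^ 3 ≤ NRD P12 n := by exact_mod_cast lower12 m n h1
  refine le_trans ?_ h4
  have hm0 : (0 : ℝ) ≤ m := Nat.cast_nonneg m
  calc (1 / 400 : ℝ) * (n : ℝ) ^ ((3 : ℝ) / 2)
      ≤ (1 / 400 : ℝ) * (48 * (m : ℝ) ^ 2) ^ ((3 : ℝ) / 2) := by gcongr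
    _ = (1 / 400 : ℝ) * ((48 : ℝ) ^ ((3 : ℝ) / 2) * (m : ℝ) ^ 3) := by
        rw [Real.mul_rpow (by norm_num) (by positivity), ← Real.rpow_natCast (m : ℝ) 2,
          ← Real.rpow_mul hm0]
        norm_num
    _ ≤ (m : ℝ) ^ 3 := by
        have h48 : (48 : ℝ) ^ ((3 : ℝ) / 2) ≤ 400 := by
          have : (48 : ℝ) ^ ((3 : ℝ) / 2) ≤ (49 : ℝ) ^ ((3 : ℝ) / 2) := by gcongr; norm_num
          have h49 : (49 : ℝ) ^ ((3 : ℝ) / 2) = 343 := by
            rw [show (49 : ℝ) = 7 ^ (2 : ℝ) by norm_num, ← Real.rpow_mul (by norm_num)]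
            norm_num
          linarith
        have : 0 ≤ (m : ℝ) ^ 3 := by positivity
        nlinarith

theorem superlinear : Tendsto (fun n : ℕ => (NRD P12 n : ℝ) / n) atTop atTop := by
  have h : Tendsto (fun n : ℕ => (1 / 400 : ℝ) * (n : ℝ) ^ ((1 : ℝ) / 2)) atTop atTop :=
    Tendsto.const_mul_atTop (by norm_num)
      ((tendsto_rpow_atTop (by norm_num)).comp tendsto_natCast_atTop_atTop)
  refine tendsto_atTop_mono' _ ?_ h
  filter_upwards [lower_eventually, eventually_gt_atTop 0] with n hn hn0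
  have hn0' : (0 : ℝ) < n := by exact_mod_cast hn0
  rw [le_div_iff₀ hn0']
  refine le_trans (le_of_eq ?_) hn
  have : (n : ℝ) ^ ((3 : ℝ) / 2) = (n : ℝ) ^ ((1 : ℝ) / 2) * n := by
    rw [show ((3 : ℝ) / 2) = 1 / 2 + 1 by norm_num, Real.rpow_add hn0', Real.rpow_one]
  rw [this]
  ring

theorem subquadratic : Tendsto (fun n : ℕ => (NRD P12 n : ℝ) / n ^ 2) atTop (𝓝 0) := by
  rw [Metric.tendsto_atTop]
  intro ε hε
  obtain ⟨N₀, hN₀⟩ := upper12 (half_pos hε)
  refine ⟨max N₀ (⌊24 / ε⌋₊ + 1), fun n hn => ?_⟩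
  have h1 := hN₀ n ((le_max_left _ _).trans hn)
  have h2 : 24 / ε < n := by
    have h3 : ⌊24 / ε⌋₊ + 1 ≤ n := (le_max_right _ _).trans hn
    exact (Nat.floor_lt' (by omega)).1 (by omega)
  have hn1 : (1 : ℝ) ≤ n := by
    have h3 : ⌊24 / ε⌋₊ + 1 ≤ n := (le_max_right _ _).trans hn
    have : 1 ≤ n := by omega
    exact_mod_cast this
  rw [Real.dist_eq, sub_zero, abs_of_nonneg (by positivity), div_lt_iff₀ (by positivity)]
  rw [div_lt_iff₀ hε] at h2
  nlinarith

end Pool.Agent.V11247.Nrd
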