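import Mathlib

/-!
# A linear Loomis-Whitney inequality

For a space `F` of functions on `X × X × X` all of whose slices lie in a space `W` of functions on
`X × X` we have `(dim F)² ≤ (dim W)³`.
-/

open Finset Module

namespace Pool.Agent.V11247.Nrd

section Lead

variable {X : Type} [Fintype X]

/-- The positions that are the last nonzero position (in the order given by `r`) of some element
of `F`. -/
noncomputable def lead (r : X → ℕ) (F : Submodule ℚ (X → ℚ)) : Finset X := by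
  classical
  exact univ.filter fun x => ∃ f ∈ F, f x ≠ 0 ∧ ∀ y, r x < r y → f y = 0

theorem mem_lead {r : X → ℕ} {F : Submodule ℚ (X → ℚ)} {x : X} :
    x ∈ lead r F ↔ ∃ f ∈ F, f x ≠ 0 ∧ ∀ y, r x < r y → f y = 0 := by
  simp [lead]

theorem finrank_le_lead (r : X → ℕ) (F : Submodule ℚ (X → ℚ)) :
    finrank ℚ F ≤ #(lead r F) := by
  classical
  let φ : F →ₗ[ℚ] (lead r F → ℚ) :=
    { toFun := fun f x => f.1 x.1
      map_add' := fun f g => rfl
      map_smul' := fun a f => rfl }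
  have hφ : Function.Injective φ := by
    rw [← LinearMap.ker_eq_bot, LinearMap.ker_eq_bot']
    intro f hf
    by_contra hne
    have hne' : (f.1 : X → ℚ) ≠ 0 := fun h => hne (Subtype.ext h)
    have hex : (univ.filter fun x => f.1 x ≠ 0).Nonempty := by
      by_contra hempty
      rw [not_nonempty_iff_eq_empty, filter_eq_empty_iff] at hempty
      apply hne'
      funext x
      have := hempty (mem_univ x)
      simpa using this
    obtain ⟨x, hx, hmax⟩ := exists_max_image _ r hex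
    have hx0 : f.1 x ≠ 0 := (mem_filter.1 hx).2
    have hxl : x ∈ lead r F := by
      rw [mem_lead]
      refine ⟨f.1, f.2, hx0, ?_⟩
      intro y hy
      by_contra hy0
      have := hmax y (mem_filter.2 ⟨mem_univ _, hy0⟩)
      omega
    have := congrFun hf ⟨x, hxl⟩
    exact hx0 this
  have := LinearMap.finrank_le_finrank_of_injective hφ
  simpa using this

theorem lead_le_finrank (r : X → ℕ) (hr : Function.Injective r) (F : Submodule ℚ (X → ℚ)) :
    #(lead r F) ≤ finrank ℚ F := by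
  classical
  have hch : ∀ x : lead r F, ∃ f : X → ℚ, f ∈ F ∧ f x.1 ≠ 0 ∧ ∀ y, r x.1 < r y → f y = 0 := by
    rintro ⟨x, hx⟩
    obtain ⟨f, h1, h2, h3⟩ := mem_lead.1 hx
    exact ⟨f, h1, h2, h3⟩
  choose f hfF hf0 hflt using hch
  have hli : LinearIndependent ℚ (fun x : lead r F => (⟨f x, hfF x⟩ : F)) := by
    rw [Fintype.linearIndependent_iff]
    intro g hg
    by_contra hne
    push Not at hne
    have hex : (univ.filter fun x : lead r F => g x ≠ 0).Nonempty := by
      obtain ⟨x, hx⟩ := hne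
      exact ⟨x, mem_filter.2 ⟨mem_univ _, hx⟩⟩
    obtain ⟨x, hx, hmax⟩ := exists_max_image _ (fun x : lead r F => r x.1) hex
    have hx0 : g x ≠ 0 := (mem_filter.1 hx).2
    have h1 : ∑ z : lead r F, g z * f z x.1 = 0 := by
      have h2 := congrArg (fun w : F => w.1 x.1) hg
      simpa [Submodule.coe_sum, Finset.sum_apply] using h2
    rw [Finset.sum_eq_single x] at h1
    · exact (mul_ne_zero hx0 (hf0 x)) h1
    · intro z _ hzx
      by_cases hgz : g z = 0
      · rw [hgz, zero_mul]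
      · have hle : r z.1 ≤ r x.1 := hmax z (mem_filter.2 ⟨mem_univ _, hgz⟩)
        have hne' : r z.1 ≠ r x.1 := fun h => hzx (Subtype.ext (hr h))
        rw [hflt z x.1 (lt_of_le_of_ne hle hne'), mul_zero]
    · intro h; exact absurd (mem_univ _) h
  have := hli.fintype_card_le_finrank
  simpa using this

end Lead

/-- The discrete Loomis-Whitney inequality. -/
theorem loomis_whitney {α β γ : Type} [DecidableEq α] [DecidableEq β] [DecidableEq γ]
    (S : Finset (α × β × γ)) (A : Finset (α × β)) (B : Finset (α × γ)) (D : Finset (β × γ))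
    (hA : ∀ s ∈ S, (s.1, s.2.1) ∈ A) (hB : ∀ s ∈ S, (s.1, s.2.2) ∈ B)
    (hD : ∀ s ∈ S, (s.2.1, s.2.2) ∈ D) : #S ^ 2 ≤ #A * (#B * #D) := by
  -- fibres over `A`
  have h1 : #S = ∑ a ∈ A, #(S.filter fun s => (s.1, s.2.1) = a) :=
    card_eq_sum_card_fiberwise (fun s hs => hA s hs)
  have h2 : #S ^ 2 ≤ #A * ∑ a ∈ A, #(S.filter fun s => (s.1, s.2.1) = a) ^ 2 := by
    rw [h1]
    exact sq_sum_le_card_mul_sum_sq
  refine h2.trans (Nat.mul_le_mul_left _ ?_)
  -- pairs in the same fibre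
  have h3 : ∑ a ∈ A, #(S.filter fun s => (s.1, s.2.1) = a) ^ 2
      = #((A.sigma fun a => (S.filter fun s => (s.1, s.2.1) = a) ×ˢ
          (S.filter fun s => (s.1, s.2.1) = a))) := by
    rw [card_sigma]
    refine sum_congr rfl fun a _ => ?_
    rw [card_product, sq]
  rw [h3, ← card_product]
  refine card_le_card_of_injOn (fun p => ((p.2.1.1, p.2.1.2.2), (p.2.2.2.1, p.2.2.2.2))) ?_ ?_
  · rintro ⟨a, s, s'⟩ hp
    simp only [coe_sigma, coe_product, Set.mem_sigma_iff, mem_coe, Set.mem_prod,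
      mem_filter] at hp
    simp only [coe_product, Set.mem_prod, mem_coe]
    exact ⟨hB s hp.2.1.1, hD s' hp.2.2.1⟩
  · rintro ⟨a, s, s'⟩ hp ⟨b, w, w'⟩ hq heq
    simp only [coe_sigma, coe_product, Set.mem_sigma_iff, mem_coe, Set.mem_prod,
      mem_filter] at hp hq
    simp only [Prod.mk.injEq] at heq
    obtain ⟨-, ⟨-, hs⟩, ⟨-, hs'⟩⟩ := hp
    obtain ⟨-, ⟨-, hw⟩, ⟨-, hw'⟩⟩ := hq
    obtain ⟨s1, s2, s3⟩ := s
    obtain ⟨s1', s2', s3'⟩ := s'
    obtain ⟨w1, w2, w3⟩ := w
    obtain ⟨w1', w2', w3'⟩ := w'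
    simp only at hs hs' hw hw' heq
    obtain ⟨⟨e1, e2⟩, e3, e4⟩ := heq
    subst hs
    subst hw
    simp only [Prod.mk.injEq] at hs' hw'
    obtain ⟨f1, f2⟩ := hs'
    obtain ⟨g1, g2⟩ := hw'
    subst f1 f2 g1 g2 e1 e2 e3 e4
    rfl

/-- **Linear Loomis-Whitney inequality.** -/
theorem linear_LW {N : ℕ} (F : Submodule ℚ (Fin N × Fin N × Fin N → ℚ))
    (W : Submodule ℚ (Fin N × Fin N → ℚ))
    (h12 : ∀ f ∈ F, ∀ z, (fun p : Fin N × Fin N => f (p.1, p.2, z)) ∈ W)
    (h13 : ∀ f ∈ F, ∀ y, (fun p : Fin N × Fin N => f (p.1, y, p.2)) ∈ W)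
    (h23 : ∀ f ∈ F, ∀ x, (fun p : Fin N × Fin N => f (x, p.1, p.2)) ∈ W) :
    finrank ℚ F ^ 2 ≤ finrank ℚ W ^ 3 := by
  classical
  let r2 : Fin N × Fin N → ℕ := fun p => p.1 * N + p.2
  let r3 : Fin N × Fin N × Fin N → ℕ := fun p => (p.1 * N + p.2.1) * N + p.2.2
  have hr2 : Function.Injective r2 := by
    rintro ⟨x, y⟩ ⟨x', y'⟩ h
    simp only [r2] at h
    have hx := x.2
    have hy := y.2
    have hy' := y'.2
    have hN : 0 < N := by omega
    have h1 : (x : ℕ) = x' := by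
      have e1 : ((x : ℕ) * N + y) / N = x := by
        rw [mul_comm, Nat.mul_add_div hN, Nat.div_eq_of_lt hy, add_zero]
      have e2 : ((x' : ℕ) * N + y') / N = x' := by
        rw [mul_comm, Nat.mul_add_div hN, Nat.div_eq_of_lt hy', add_zero]
      rw [← e1, h, e2]
    have h2 : (y : ℕ) = y' := by
      rw [h1] at h
      omega
    exact Prod.ext (Fin.ext h1) (Fin.ext h2)
  have hlex : ∀ a b c d : ℕ, b < N → d < N → a * N + b < c * N + d → a < c ∨ (a = c ∧ b < d) := by
    intro a b c d hb hd h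
    rcases lt_trichotomy a c with h1 | h1 | h1
    · exact Or.inl h1
    · subst h1
      exact Or.inr ⟨rfl, by omega⟩
    · exfalso
      have : (c + 1) * N ≤ a * N := Nat.mul_le_mul_right _ h1
      nlinarith
  have hS : #(lead r3 F) ^ 2 ≤ #(lead r2 W) * (#(lead r2 W) * #(lead r2 W)) := by
    apply loomis_whitney
    · rintro ⟨x, y, z⟩ hs
      rw [mem_lead] at hs ⊢
      obtain ⟨f, hf, h0, hlt⟩ := hs
      refine ⟨_, h12 f hf z, h0, ?_⟩
      rintro ⟨x', y'⟩ hp
      apply hlt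
      simp only [r2, r3] at hp ⊢
      have hz : (z : ℕ) < N := z.2
      have : ((x : ℕ) * N + y + 1) * N ≤ ((x' : ℕ) * N + y') * N := Nat.mul_le_mul_right _ hp
      nlinarith
    · rintro ⟨x, y, z⟩ hs
      rw [mem_lead] at hs ⊢
      obtain ⟨f, hf, h0, hlt⟩ := hs
      refine ⟨_, h13 f hf y, h0, ?_⟩
      rintro ⟨x', z'⟩ hp
      apply hlt
      simp only [r2, r3] at hp ⊢
      rcases hlex _ _ _ _ z.2 z'.2 hp with h | ⟨h, h'⟩
      · have hz : (z : ℕ) < N := z.2
        have e1 : ((x : ℕ) + 1) * N ≤ x' * N := Nat.mul_le_mul_right _ h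
        have e2 : (((x : ℕ) * N + y) + 1) * N ≤ ((x' : ℕ) * N + y) * N := by
          apply Nat.mul_le_mul_right
          nlinarith
        nlinarith
      · rw [h]
        omega
    · rintro ⟨x, y, z⟩ hs
      rw [mem_lead] at hs ⊢
      obtain ⟨f, hf, h0, hlt⟩ := hs
      refine ⟨_, h23 f hf x, h0, ?_⟩
      rintro ⟨y', z'⟩ hp
      apply hlt
      simp only [r2, r3] at hp ⊢
      rw [add_mul, add_mul]
      omega
  calc finrank ℚ F ^ 2 ≤ #(lead r3 F) ^ 2 := Nat.pow_le_pow_left (finrank_le_lead r3 F) 2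
    _ ≤ #(lead r2 W) * (#(lead r2 W) * #(lead r2 W)) := hS
    _ = #(lead r2 W) ^ 3 := by ring
    _ ≤ finrank ℚ W ^ 3 := Nat.pow_le_pow_left (lead_le_finrank r2 hr2 W) 3

end Pool.Agent.V11247.Nrd
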