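import Mathlib

/-!
# Non-redundancy of Boolean predicates: definitions, transport, linear bound
-/

open Finset

namespace Pool.Agent.V11247.Nrd

/-- An instance of `CSP(P)`, given as a finite set `C` of clauses (each clause is an `ι`-tuple of
variables from `V`), is non-redundant if for every clause `c ∈ C` some assignment `ψ` satisfies all
the clauses of `C` other than `c` but does not satisfy `c`. -/
def NonRedundant {ι V : Type} (P : Set (ι → Bool)) (C : Finset (ι → V)) : Prop :=
  ∀ c ∈ C, ∃ ψ : V → Bool, (fun i => ψ (c i)) ∉ P ∧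
    ∀ c' ∈ C, c' ≠ c → (fun i => ψ (c' i)) ∈ P

/-- The non-redundancy of a Boolean predicate `P` of arity `r`: the largest number of clauses in a
non-redundant instance of `CSP(P)` on `n` variables. -/
noncomputable def NRD {r : ℕ} (P : Set (Fin r → Bool)) (n : ℕ) : ℕ :=
  sSup {k | ∃ C : Finset (Fin r → Fin n), NonRedundant P C ∧ #C = k}

theorem nrd_bddAbove {r : ℕ} (P : Set (Fin r → Bool)) (n : ℕ) :
    BddAbove {k | ∃ C : Finset (Fin r → Fin n), NonRedundant P C ∧ #C = k} := by
  refine ⟨Fintype.card (Fin r → Fin n), ?_⟩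
  rintro k ⟨C, -, rfl⟩
  exact Finset.card_le_univ C

theorem le_nrd {r : ℕ} {P : Set (Fin r → Bool)} {n : ℕ} {C : Finset (Fin r → Fin n)}
    (h : NonRedundant P C) : #C ≤ NRD P n :=
  le_csSup (nrd_bddAbove P n) ⟨C, h, rfl⟩

theorem exists_nrd {r : ℕ} (P : Set (Fin r → Bool)) (n : ℕ) :
    ∃ C : Finset (Fin r → Fin n), NonRedundant P C ∧ #C = NRD P n := by
  have hne : {k | ∃ C : Finset (Fin r → Fin n), NonRedundant P C ∧ #C = k}.Nonempty :=
    ⟨0, ∅, by intro c hc; simp at hc, rfl⟩
  exact Nat.sSup_mem hne (nrd_bddAbove P n)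

/-- transport the variables along an injection. -/
theorem NonRedundant.map {ι V W : Type} [DecidableEq (ι → W)] {P : Set (ι → Bool)}
    {C : Finset (ι → V)} (h : NonRedundant P C) (g : V → W) (hg : Function.Injective g) :
    NonRedundant P (C.image fun c i => g (c i)) := by
  intro c' hc'
  obtain ⟨c, hc, rfl⟩ := mem_image.1 hc'
  obtain ⟨ψ, h1, h2⟩ := h c hc
  refine ⟨Function.extend g ψ (fun _ => false), ?_, ?_⟩
  · simpa [hg.extend_apply] using h1
  · intro d' hd' hne
    obtain ⟨d, hd, rfl⟩ := mem_image.1 hd'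
    have : d ≠ c := by rintro rfl; exact hne rfl
    simpa [hg.extend_apply] using h2 d hd this

/-- transport the positions along an equivalence. -/
theorem NonRedundant.reindex {ι κ V : Type} [DecidableEq (κ → V)] {P : Set (ι → Bool)}
    {C : Finset (ι → V)} (h : NonRedundant P C) (σ : κ ≃ ι) :
    NonRedundant {v : κ → Bool | (fun i => v (σ.symm i)) ∈ P} (C.image fun c j => c (σ j)) := by
  intro c' hc'
  obtain ⟨c, hc, rfl⟩ := mem_image.1 hc'
  obtain ⟨ψ, h1, h2⟩ := h c hc
  refine ⟨ψ, ?_, ?_⟩
  · simpa using h1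
  · intro d' hd' hne
    obtain ⟨d, hd, rfl⟩ := mem_image.1 hd'
    have : d ≠ c := by rintro rfl; exact hne rfl
    simpa using h2 d hd this

/-- `{0,1}`-value of a Boolean. -/
def bv (b : Bool) : ℤ := if b then 1 else 0

/-- If all other clauses satisfy an equation violated by the given one, there are at most `n + 1`
clauses. -/
theorem linear_bound {ι V : Type} [Fintype ι] [Fintype V] (lam : ι → ℤ)
    (mu : ℤ) (C : Finset (ι → V))
    (hC : ∀ c ∈ C, ∃ ψ : V → Bool, ∑ i, lam i * bv (ψ (c i)) ≠ mu ∧
      ∀ c' ∈ C, c' ≠ c → ∑ i, lam i * bv (ψ (c' i)) = mu) : #C ≤ Fintype.card V + 1 := by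
  classical
  let w : C → (Option V → ℚ) := fun c o =>
    match o with
    | none => -(mu : ℚ)
    | some v => ∑ i, (lam i : ℚ) * (if c.1 i = v then 1 else 0)
  have hli : LinearIndependent ℚ w := by
    rw [Fintype.linearIndependent_iff]
    intro g hg c
    obtain ⟨ψ, h1, h2⟩ := hC c.1 c.2
    -- the functional
    have hval : ∀ d : C, ∑ v, w d (some v) * (bv (ψ v) : ℚ) + w d none
        = ((∑ i, lam i * bv (ψ (d.1 i)) - mu : ℤ) : ℚ) := by
      intro d
      simp only [w]
      push_cast
      rw [sub_eq_add_neg]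
      congr 1
      simp only [sum_mul]
      rw [sum_comm]
      refine sum_congr rfl fun i _ => ?_
      rw [Finset.sum_eq_single (d.1 i)]
      · simp
      · intro v _ hv
        simp [Ne.symm hv]
      · intro h; exact absurd (mem_univ _) h
    have hsum : ∑ d : C, g d * (∑ v, w d (some v) * (bv (ψ v) : ℚ) + w d none) = 0 := by
      have e1 : ∀ o, ∑ d : C, g d * w d o = 0 := by
        intro o
        have := congrFun hg o
        simpa using this
      calc ∑ d : C, g d * (∑ v, w d (some v) * (bv (ψ v) : ℚ) + w d none)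
          = ∑ v, (∑ d : C, g d * w d (some v)) * (bv (ψ v) : ℚ) + ∑ d : C, g d * w d none := by
            simp only [mul_add, sum_add_distrib, mul_sum, sum_mul]
            rw [sum_comm]
            simp only [mul_assoc]
        _ = 0 := by
            rw [e1 none, add_zero]
            exact sum_eq_zero fun v _ => by rw [e1 (some v), zero_mul]
    rw [Finset.sum_eq_single c] at hsum
    · rw [hval] at hsum
      have hne : ((∑ i, lam i * bv (ψ (c.1 i)) - mu : ℤ) : ℚ) ≠ 0 := by
        rw [Ne, Int.cast_eq_zero, sub_eq_zero]; exact h1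
      exact (mul_eq_zero.1 hsum).resolve_right hne
    · intro d _ hd
      rw [hval]
      have : ∑ i, lam i * bv (ψ (d.1 i)) - mu = 0 := by
        rw [sub_eq_zero]
        exact h2 d.1 d.2 (fun h => hd (Subtype.ext h))
      rw [this]; simp
    · intro h; exact absurd (mem_univ _) h
  have := hli.fintype_card_le_finrank
  simpa using this

end Pool.Agent.V11247.Nrd
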