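import Pool.Agent.V11247.Nrd.Exact
import Pool.Agent.V11247.Nrd.Final

/-!
# The 12-ary predicate has non-redundancy `Θ(n^{3/2})`
-/

open Finset Filter Topology

namespace Pool.Agent.V11247.Nrd

/-- The clauses violated with the tuple `row 111`, and the others. -/
theorem split {V : Type} [Fintype V] (C : Finset (Pos → V)) (hC : NonRedundant Pr C) :
    ∃ Ct : Finset (Pos → V), #C ≤ #Ct + 6 * (Fintype.card V + 1) ∧ (∀ c ∈ Ct, c ∈ C) ∧
      ∀ c ∈ Ct, ∃ ψ : V → Bool, (∀ i, ψ (c i) = row (fun _ => true) i) ∧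
      ∀ c' ∈ C, c' ≠ c → ∃ u : Fin 3 → Bool, ¬ (u 0 = true ∧ u 1 = true ∧ u 2 = true) ∧
        ∀ i, ψ (c' i) = row u i := by
  classical
  set Ct := C.filter fun c => ∃ ψ : V → Bool, (fun i => ψ (c i)) = row (fun _ => true) ∧
    ∀ c' ∈ C, c' ≠ c → (fun i => ψ (c' i)) ∈ Pr with hCt
  set C1 : Fin 3 → Finset (Pos → V) := fun A => C.filter fun c => ∃ ψ : V → Bool,
    ∑ i, lam1 A i * bv (ψ (c i)) ≠ 1 ∧ ∀ c' ∈ C, c' ≠ c → (fun i => ψ (c' i)) ∈ Pr with hC1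
  set C2 : Fin 3 → Finset (Pos → V) := fun A => C.filter fun c => ∃ ψ : V → Bool,
    ∑ i, lam2 A i * bv (ψ (c i)) ≠ 0 ∧ ∀ c' ∈ C, c' ≠ c → (fun i => ψ (c' i)) ∈ Pr with hC2
  have hcover : C ⊆ Ct ∪ (univ.biUnion C1 ∪ univ.biUnion C2) := by
    intro c hc
    obtain ⟨ψ, h1, h2⟩ := hC c hc
    by_cases hA : ∀ A, ∑ i, lam1 A i * bv (ψ (c i)) = 1
    · by_cases hB : ∀ A, ∑ i, lam2 A i * bv (ψ (c i)) = 0
      · obtain ⟨u, hu⟩ := decode (fun i => ψ (c i)) hA hB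
        have hu1 : u = fun _ => true := by
          by_contra hne
          exact h1 ⟨u, hne, hu⟩
        apply mem_union_left
        rw [hCt, mem_filter]
        exact ⟨hc, ψ, by rw [hu, hu1], h2⟩
      · push Not at hB
        obtain ⟨A, hA'⟩ := hB
        apply mem_union_right
        apply mem_union_right
        rw [mem_biUnion]
        exact ⟨A, mem_univ _, mem_filter.2 ⟨hc, ψ, hA', h2⟩⟩
    · push Not at hA
      obtain ⟨A, hA'⟩ := hA
      apply mem_union_right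
      apply mem_union_left
      rw [mem_biUnion]
      exact ⟨A, mem_univ _, mem_filter.2 ⟨hc, ψ, hA', h2⟩⟩
  have hlin1 : ∀ A, #(C1 A) ≤ Fintype.card V + 1 := by
    intro A
    apply linear_bound (lam1 A) 1
    intro c hc
    obtain ⟨hcC, ψ, h1, h2⟩ := mem_filter.1 hc
    refine ⟨ψ, h1, ?_⟩
    intro c' hc' hne
    obtain ⟨u, -, hu⟩ := h2 c' (mem_filter.1 hc').1 hne
    have := row_eq1 u A
    rw [← hu] at this
    exact this
  have hlin2 : ∀ A, #(C2 A) ≤ Fintype.card V + 1 := by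
    intro A
    apply linear_bound (lam2 A) 0
    intro c hc
    obtain ⟨hcC, ψ, h1, h2⟩ := mem_filter.1 hc
    refine ⟨ψ, h1, ?_⟩
    intro c' hc' hne
    obtain ⟨u, -, hu⟩ := h2 c' (mem_filter.1 hc').1 hne
    have := row_eq2 u A
    rw [← hu] at this
    exact this
  refine ⟨Ct, ?_, fun c hc => (mem_filter.1 hc).1, ?_⟩
  · have hle : #C ≤ #Ct + (∑ A, #(C1 A) + ∑ A, #(C2 A)) :=
      (card_le_card hcover).trans ((card_union_le _ _).trans
        (Nat.add_le_add_left ((card_union_le _ _).trans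
          (Nat.add_le_add card_biUnion_le card_biUnion_le)) _))
    have hs1 : ∑ A, #(C1 A) ≤ 3 * (Fintype.card V + 1) := by
      calc ∑ A, #(C1 A) ≤ ∑ _A : Fin 3, (Fintype.card V + 1) := sum_le_sum fun A _ => hlin1 A
        _ = 3 * (Fintype.card V + 1) := by simp
    have hs2 : ∑ A, #(C2 A) ≤ 3 * (Fintype.card V + 1) := by
      calc ∑ A, #(C2 A) ≤ ∑ _A : Fin 3, (Fintype.card V + 1) := sum_le_sum fun A _ => hlin2 A
        _ = 3 * (Fintype.card V + 1) := by simp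
    omega
  · intro c hc
    obtain ⟨hcC, ψ, h1, h2⟩ := mem_filter.1 hc
    refine ⟨ψ, fun i => congrFun h1 i, ?_⟩
    intro c' hc' hne
    obtain ⟨u, hu, huv⟩ := h2 c' hc' hne
    refine ⟨u, ?_, fun i => congrFun huv i⟩
    rintro ⟨h0, h1, h2⟩
    apply hu
    funext i
    fin_cases i <;> assumption

theorem upper_exact {V : Type} [Fintype V] (C : Finset (Pos → V)) (hC : NonRedundant Pr C) :
    ∃ N : ℕ, #C ≤ N + 6 * (Fintype.card V + 1) ∧ N ^ 2 ≤ (2 * Fintype.card V) ^ 3 := by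
  classical
  obtain ⟨Ct, hcard, hsub, hkey⟩ := split C hC
  refine ⟨#Ct, hcard, ?_⟩
  have hΨ : ∀ c : Ct, ∃ ψ : V → Bool, (∀ i, ψ (c.1 i) = row (fun _ => true) i) ∧
      ∀ c' ∈ C, c' ≠ c.1 → ∃ u : Fin 3 → Bool, ¬ (u 0 = true ∧ u 1 = true ∧ u 2 = true) ∧
        ∀ i, ψ (c' i) = row u i := fun c => hkey c.1 c.2
  choose Ψ hΨ1 hΨ2 using hΨ
  have hu : ∀ d c : Ct, ∃ u : Fin 3 → Bool, (∀ i, Ψ d (c.1 i) = row u i) ∧
      (d = c → ∀ A, u A = true) ∧ (d ≠ c → ¬ (u 0 = true ∧ u 1 = true ∧ u 2 = true)) := by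
    intro d c
    by_cases h : d = c
    · subst h
      exact ⟨fun _ => true, hΨ1 d, fun _ _ => rfl, fun h => absurd rfl h⟩
    · have hne : c.1 ≠ d.1 := fun h' => h (Subtype.ext h'.symm)
      obtain ⟨u, hu1, hu2⟩ := hΨ2 d c.1 (hsub _ c.2) hne
      exact ⟨u, hu2, fun h' => absurd h' h, fun _ => hu1⟩
  choose u hu1 hu2 hu3 using hu
  let e : Fin #Ct ≃ Ct := Ct.equivFin.symm
  let S : Sys #Ct V :=
    { cl := fun k => (e k).1
      ψ := fun k => Ψ (e k)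
      u := fun d c => u (e d) (e c)
      hu := fun d c i => hu1 (e d) (e c) i
      diag := fun c A => hu2 (e c) (e c) rfl A
      off := fun d c h => hu3 (e d) (e c) (fun h' => h (e.injective h')) }
  exact S.bound

theorem nrd_upper (n : ℕ) : ∃ N : ℕ, NRD P12 n ≤ N + 6 * (n + 1) ∧ N ^ 2 ≤ (2 * n) ^ 3 := by
  classical
  obtain ⟨C, hC, hcard⟩ := exists_nrd P12 n
  have h1 := hC.reindex σ.symm
  have h2 : {v : Pos → Bool | (fun i => v (σ.symm.symm i)) ∈ P12} = Pr := by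
    ext v
    simp [P12]
  rw [h2] at h1
  have h3 : #(C.image fun c j => c (σ.symm j)) = #C := by
    apply card_image_of_injective
    intro c d hcd
    funext i
    have := congrFun hcd (σ i)
    simpa using this
  obtain ⟨N, hN1, hN2⟩ := upper_exact _ h1
  rw [h3, hcard, Fintype.card_fin] at hN1
  rw [Fintype.card_fin] at hN2
  exact ⟨N, hN1, hN2⟩

theorem upper_eventually : ∀ᶠ n : ℕ in atTop,
    (NRD P12 n : ℝ) ≤ 15 * (n : ℝ) ^ ((3 : ℝ) / 2) := by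
  filter_upwards [eventually_ge_atTop 1] with n hn
  obtain ⟨N, hN1, hN2⟩ := nrd_upper n
  have hn1 : (1 : ℝ) ≤ n := by exact_mod_cast hn
  have hn0 : (0 : ℝ) ≤ n := by linarith
  have hpow : ((n : ℝ) ^ ((3 : ℝ) / 2)) ^ 2 = (n : ℝ) ^ 3 := by
    rw [← Real.rpow_natCast, ← Real.rpow_mul hn0, ← Real.rpow_natCast]
    norm_num
  have hp0 : 0 ≤ (n : ℝ) ^ ((3 : ℝ) / 2) := by positivity
  have hN : (N : ℝ) ≤ 3 * (n : ℝ) ^ ((3 : ℝ) / 2) := by
    apply le_of_sq_le_sq _ (by positivity)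
    rw [mul_pow, hpow]
    have : (N : ℝ) ^ 2 ≤ (2 * (n : ℝ)) ^ 3 := by exact_mod_cast hN2
    have h3 : 0 ≤ (n : ℝ) ^ 3 := by positivity
    nlinarith
  have hnn : (n : ℝ) ≤ (n : ℝ) ^ ((3 : ℝ) / 2) := by
    calc (n : ℝ) = (n : ℝ) ^ (1 : ℝ) := (Real.rpow_one _).symm
      _ ≤ (n : ℝ) ^ ((3 : ℝ) / 2) := Real.rpow_le_rpow_of_exponent_le hn1 (by norm_num)
  have hN1' : (NRD P12 n : ℝ) ≤ N + 6 * (n + 1) := by exact_mod_cast hN1
  linarith

end Pool.Agent.V11247.Nrd
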